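import Pool.Agent.helper99.ZR.Spec

set_option autoImplicit false
set_option linter.unusedVariables false

namespace Pool.Agent.ZR

open Finset
open Pool.Agent.helper32.Cant
open Pool.Agent.GA (nrm chi ch St sg flp Psi rc ph pot rpot far nc gf ncs gfs good mj om pick pat et kap mult)
open scoped ENNReal

noncomputable section

theorem LW2_nrm {M : ℕ} [NeZero M] (v : ZMod M) : nrm v ≤ (v.val : ℝ) := by
  unfold Pool.Agent.GA.nrm
  have h1 : v.valMinAbs.natAbs ≤ v.val := by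
    rw [ZMod.valMinAbs_natAbs_eq_min]
    exact min_le_left _ _
  have h2 : |((v.valMinAbs : ℤ) : ℝ)| = ((v.valMinAbs.natAbs : ℕ) : ℝ) := by
    rw [Nat.cast_natAbs, Int.cast_abs]
  rw [h2]
  exact_mod_cast h1

/-- there are at least `ℓ` elements with `nrm v < ℓ` -/
theorem LW2_count (M l : ℕ) [NeZero M] (hl : l ≤ M) :
    (l : ℝ) ≤ ∑ v : ZMod M, ind (nrm v < (l : ℝ)) := by
  classical
  have h1 : (((range l).image (fun i : ℕ => (i : ZMod M))).card : ℝ) = l := by
    rw [Finset.card_image_of_injOn, Finset.card_range]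
    intro i hi j hj hij
    have hi' : i < M := lt_of_lt_of_le (Finset.mem_range.1 (Finset.mem_coe.1 hi)) hl
    have hj' : j < M := lt_of_lt_of_le (Finset.mem_range.1 (Finset.mem_coe.1 hj)) hl
    have := congrArg ZMod.val hij
    simpa [ZMod.val_cast_of_lt hi', ZMod.val_cast_of_lt hj'] using this
  have h2 : ((range l).image (fun i : ℕ => (i : ZMod M))) ⊆
      (Finset.univ : Finset (ZMod M)).filter (fun v => nrm v < (l : ℝ)) := by
    intro v hv
    obtain ⟨i, hi, rfl⟩ := Finset.mem_image.1 hv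
    refine Finset.mem_filter.2 ⟨Finset.mem_univ _, ?_⟩
    have hi1 := Finset.mem_range.1 hi
    refine lt_of_le_of_lt (LW2_nrm _) ?_
    rw [ZMod.val_cast_of_lt (lt_of_lt_of_le hi1 hl)]
    exact_mod_cast hi1
  have h3 : ∑ v : ZMod M, ind (nrm v < (l : ℝ)) =
      (((Finset.univ : Finset (ZMod M)).filter (fun v => nrm v < (l : ℝ))).card : ℝ) := by
    rw [Finset.card_filter, Nat.cast_sum]
    refine Finset.sum_congr rfl (fun v _ => ?_)
    unfold Pool.Agent.helper32.Cant.ind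
    split_ifs <;> simp
  rw [h3]
  calc (l : ℝ) = _ := h1.symm
    _ ≤ _ := by exact_mod_cast Finset.card_le_card h2

theorem LW2 (hTOT : TOT_stmt) (hLW1 : LW1_stmt) : LW2_stmt := by
  classical
  intro n X _ c κ k hκ hk
  obtain ⟨-, -, -, hW, hT⟩ := hTOT n X c
  have hLN : 3 ^ (2 * n - (k + 1)) ≤ 3 ^ (2 * n) := Nat.pow_le_pow_right (by norm_num) (Nat.sub_le _ _)
  have hlN : 3 ^ (2 * n - κ) ≤ 3 ^ (2 * n) := Nat.pow_le_pow_right (by norm_num) (Nat.sub_le _ _)
  set L : ℕ := 3 ^ (2 * n - (k + 1)) with hL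
  have hL' : ((3 : ℝ) ^ (2 * n - (k + 1))) = (L : ℝ) := by rw [hL]; push_cast; ring
  set En : ℝ := 8 / 3 ^ (k + 1 - κ) * (2 ^ n * (3 ^ (2 * n - (k + 1)) * Wt c)) with hEn
  -- the bound for one `v`
  have h1 : ∀ v : ZMod (3 ^ (2 * n)), nrm v < 3 ^ (2 * n - κ) →
      TC c k ≤ 3 * ∑ p : St n, |DM c κ k p v| + En := by
    intro v hv
    have a1 : TC c k ≤ ∑ w : Word n, ∑ t : ZMod (3 ^ (2 * n)),
        (3 * |DM c κ k (v - t, w) v| + 4 / 3 ^ (k + 1 - κ) * (FI c L w t
          + FI c L w (t + ((L : ℕ) : ZMod (3 ^ (2 * n)))))) := by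
      unfold TC
      exact Finset.sum_le_sum (fun w _ => Finset.sum_le_sum (fun t _ =>
        hLW1 n X c κ k w t v hκ hk hv))
    refine a1.trans (le_of_eq ?_)
    have a2 : ∀ w : Word n, ∑ t : ZMod (3 ^ (2 * n)),
        (3 * |DM c κ k (v - t, w) v| + 4 / 3 ^ (k + 1 - κ) * (FI c L w t
          + FI c L w (t + ((L : ℕ) : ZMod (3 ^ (2 * n)))))) =
        3 * ∑ τ : ZMod (3 ^ (2 * n)), |DM c κ k (τ, w) v| +
          4 / 3 ^ (k + 1 - κ) * (L * Wt c + L * Wt c) := by
      intro w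
      rw [Finset.sum_add_distrib, ← Finset.mul_sum, ← Finset.mul_sum, Finset.sum_add_distrib]
      have b1 : ∑ t : ZMod (3 ^ (2 * n)), |DM c κ k (v - t, w) v| =
          ∑ τ : ZMod (3 ^ (2 * n)), |DM c κ k (τ, w) v| :=
        Equiv.sum_comp (Equiv.subLeft v) (fun τ => |DM c κ k (τ, w) v|)
      have b2 : ∑ t : ZMod (3 ^ (2 * n)), FI c L w (t + ((L : ℕ) : ZMod (3 ^ (2 * n)))) =
          ∑ t : ZMod (3 ^ (2 * n)), FI c L w t :=
        Equiv.sum_comp (Equiv.addRight ((L : ℕ) : ZMod (3 ^ (2 * n)))) (fun t => FI c L w t)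
      have b3 := (hT L hLN w).1
      rw [b1, b2, b3]
    rw [Finset.sum_congr rfl (fun w _ => a2 w), Finset.sum_add_distrib, ← Finset.mul_sum,
      Finset.sum_const, Finset.card_univ]
    have a3 : Fintype.card (Word n) = 2 ^ n := by simp
    have a4 : ∑ p : St n, |DM c κ k p v| =
        ∑ w : Word n, ∑ τ : ZMod (3 ^ (2 * n)), |DM c κ k (τ, w) v| := by
      rw [Fintype.sum_prod_type, Finset.sum_comm]
    rw [a3, a4, hEn, hL', nsmul_eq_mul]
    push_cast
    ring
  -- averaging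
  have hcount := LW2_count (3 ^ (2 * n)) (3 ^ (2 * n - κ)) hlN
  push_cast at hcount
  set S : ℝ := ∑ p : St n, ∑ v, ind (nrm v < 3 ^ (2 * n - κ)) * |DM c κ k p v| with hS
  have hS0 : 0 ≤ S := Finset.sum_nonneg (fun p _ => Finset.sum_nonneg (fun v _ =>
    mul_nonneg (by unfold Pool.Agent.helper32.Cant.ind; split_ifs <;> norm_num) (abs_nonneg _)))
  have h2 : (∑ v : ZMod (3 ^ (2 * n)), ind (nrm v < 3 ^ (2 * n - κ))) * (TC c k - En) ≤ 3 * S := by
    rw [hS, Finset.sum_comm, Finset.sum_mul, Finset.mul_sum]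
    refine Finset.sum_le_sum (fun v _ => ?_)
    rw [← Finset.mul_sum]
    by_cases hv : nrm v < 3 ^ (2 * n - κ)
    · have := h1 v hv
      unfold Pool.Agent.helper32.Cant.ind
      rw [if_pos hv]
      linarith
    · unfold Pool.Agent.helper32.Cant.ind
      rw [if_neg hv]
      simp
  have hl0 : (0 : ℝ) < 3 ^ (2 * n - κ) := by positivity
  have h3 : TC c k - En ≤ 3 / 3 ^ (2 * n - κ) * S := by
    rcases le_or_gt (TC c k - En) 0 with h | h
    · exact h.trans (by positivity)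
    · rw [div_mul_eq_mul_div, le_div_iff₀ hl0, mul_comm]
      exact (mul_le_mul_of_nonneg_right hcount h.le).trans h2
  linarith

end

end Pool.Agent.ZR
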